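import Pool.Agent.Hhelper34.EU.Comb6

namespace Pool.Agent.Results.MP_de1c22_co.SignedEulerian

open Pool.Agent.Hhelper34.EU

/-- All three assertions of the problem hold:
(a) for `n ≥ 4`, `n ≡ 0, 1 (mod 4)`, `A_n^+` and `A_n^-` are real rooted;
(b) for even `n ≥ 2`, `B_n^+` and `B_n^-` are real rooted;
(c) for `n ≥ 3`, `D_n^+` and `D_n^-` are real rooted. -/
theorem result :
    (∀ n : ℕ, 4 ≤ n → (n % 4 = 0 ∨ n % 4 = 1) → RealRooted (Aplus n) ∧ RealRooted (Aminus n)) ∧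
    (∀ n : ℕ, 2 ≤ n → Even n → RealRooted (Bplus n) ∧ RealRooted (Bminus n)) ∧
    (∀ n : ℕ, 3 ≤ n → RealRooted (Dplus n) ∧ RealRooted (Dminus n)) := by
  refine ⟨fun n hn h => ?_, fun n hn he => ?_, fun n hn => ?_⟩
  · obtain ⟨f1, f2⟩ := A_formula n
    obtain ⟨r1, r2⟩ := A_RR hn h
    exact ⟨real_of_two f1 r1, real_of_two f2 r2⟩
  · obtain ⟨m, rfl⟩ : ∃ m, n = 2 * m := ⟨n / 2, by obtain ⟨k, hk⟩ := he; omega⟩
    obtain ⟨f1, f2⟩ := B_formula m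
    obtain ⟨r1, r2⟩ := B_RR hn he
    exact ⟨real_of_two f1 r1, real_of_two f2 r2⟩
  · obtain ⟨m, rfl⟩ : ∃ m, n = m + 2 := ⟨n - 2, by omega⟩
    obtain ⟨f1, f2⟩ := D_formula m
    obtain ⟨r1, r2⟩ := D_RR hn
    exact ⟨real_of_two f1 r1, real_of_two f2 r2⟩

end Pool.Agent.Results.MP_de1c22_co.SignedEulerian
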